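import Mathlib

/-! Canonical join complexes of finite semidistributive lattices: definitions. -/

namespace Pool.Agent.Q240.CJC

/-- semidistributive lattices: join-semidistributive and meet-semidistributive -/
def SemiDist (L : Type*) [Lattice L] : Prop :=
  (∀ x y z : L, x ⊔ y = x ⊔ z → x ⊔ (y ⊓ z) = x ⊔ y) ∧
  (∀ x y z : L, x ⊓ y = x ⊓ z → x ⊓ (y ⊔ z) = x ⊓ y)

/-- `A` is the canonical join representation of `w`: it has join `w`, no proper subset of it has
join `w`, and it refines every set with join `w` -/
def CanonJoinRep {L : Type*} [Lattice L] (A : Set L) (w : L) : Prop :=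
  IsLUB A w ∧ (∀ A' : Set L, A' ⊂ A → ¬ IsLUB A' w) ∧
    ∀ B : Set L, IsLUB B w → ∀ a ∈ A, ∃ b ∈ B, a ≤ b

/-- the join-irreducible elements (the vertices of the canonical join complex) -/
abbrev JI (L : Type*) [Lattice L] : Type _ := {j : L // SupIrred j}

/-- the faces of the canonical join complex -/
def cjc (L : Type*) [Lattice L] : Set (Set (JI L)) :=
  {A | ∃ w : L, CanonJoinRep (Subtype.val '' A) w}

end Pool.Agent.Q240.CJC
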