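import Mathlib
import Pool.Agent.Q240.CJC.Defs

/-! If the non-faces of size two of the canonical join complex form a triangle-free graph, then
this graph is 3-colourable. -/

namespace Pool.Agent.Q240.CJC

variable {L : Type*} [Lattice L]

/-- `s` is the unique lower cover of `j`, and `k` is the largest element above `s`, not above `j` -/
structure Kap (j s k : L) : Prop where
  s1 : s < j
  s2 : ∀ y, y < j → y ≤ s
  k1 : ¬ j ≤ k
  k2 : s ≤ k
  k3 : ∀ x, s ≤ x → ¬ j ≤ x → x ≤ k

lemma exists_max_of_sup [Finite L] (S : Set L) (hne : S.Nonempty)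
    (hsup : ∀ x ∈ S, ∀ y ∈ S, x ⊔ y ∈ S) : ∃ m ∈ S, ∀ x ∈ S, x ≤ m := by
  obtain ⟨m, hm⟩ := Set.Finite.exists_maximal (Set.toFinite S) hne
  refine ⟨m, hm.prop, fun x hx => ?_⟩
  have h1 := hsup m hm.prop x hx
  have h2 : m ⊔ x ≤ m := hm.le_of_ge h1 le_sup_left
  exact le_sup_right.trans h2

lemma exists_kap [Finite L] (h : SemiDist L) {j : L} (hj : SupIrred j) :
    ∃ s k : L, Kap j s k := by
  have hne : {x : L | x < j}.Nonempty := by
    have := hj.1
    rw [not_isMin_iff] at this
    exact this
  obtain ⟨s, hs, hsmax⟩ := exists_max_of_sup {x : L | x < j} hne (by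
    intro x hx y hy
    refine lt_of_le_of_ne (sup_le (le_of_lt hx) (le_of_lt hy)) fun he => ?_
    rcases hj.2 he with h1 | h1
    · exact (ne_of_lt hx) h1
    · exact (ne_of_lt hy) h1)
  have hs' : s < j := hs
  obtain ⟨k, hk, hkmax⟩ := exists_max_of_sup {x : L | j ⊓ x = s} ⟨s, by
      show j ⊓ s = s
      exact inf_eq_right.2 hs'.le⟩ (by
    intro x hx y hy
    have hx' : j ⊓ x = s := hx
    have hy' : j ⊓ y = s := hy
    show j ⊓ (x ⊔ y) = s
    rw [h.2 j x y (hx'.trans hy'.symm), hx'])
  have hk' : j ⊓ k = s := hk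
  refine ⟨s, k, hs', fun y hy => hsmax y hy, ?_, ?_, ?_⟩
  · intro hjk
    rw [inf_eq_left.2 hjk] at hk'
    exact (ne_of_lt hs') hk'.symm
  · rw [← hk']; exact inf_le_right
  · intro x hsx hjx
    apply hkmax
    show j ⊓ x = s
    apply le_antisymm
    · apply hsmax
      exact lt_of_le_of_ne inf_le_left fun he => hjx (inf_eq_left.1 he)
    · exact le_inf hs'.le hsx

/-- an arc gives a non-face -/
lemma not_canon {a b s k w : L} (hb : Kap b s k) (hab : a ≠ b) (harc : ¬ a ≤ k) :
    ¬ CanonJoinRep {a, b} w := by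
  rintro ⟨h1, h2, h3⟩
  have hbx : b ≤ a ⊔ s := by
    by_contra hcon
    exact harc (le_sup_left.trans (hb.k3 _ le_sup_right hcon))
  have hw : w = a ⊔ b := h1.unique isLUB_pair
  have h4 : IsLUB {a, s} w := by
    have : a ⊔ s = w := by
      rw [hw]
      exact le_antisymm (sup_le le_sup_left (hb.s1.le.trans le_sup_right)) (sup_le le_sup_left hbx)
    rw [← this]
    exact isLUB_pair
  obtain ⟨c, hc, hbc⟩ := h3 _ h4 b (by simp)
  rcases hc with rfl | hc
  · apply h2 {c} _ _
    · refine ⟨by simp, fun hsub => ?_⟩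
      have := hsub (show b ∈ ({c, b} : Set L) by simp)
      exact hab (by simpa using this.symm)
    · rw [hw, sup_eq_left.2 hbc]
      exact isLUB_singleton
  · have hc' : c = s := hc
    rw [hc'] at hbc
    exact absurd hbc hb.s1.not_ge

lemma refine_aux (h : SemiDist L) {a b s k : L} (ha : Kap a s k) (hba : b ≤ k) {B : Set L}
    (hB : IsLUB B (a ⊔ b)) : ∃ x ∈ B, a ≤ x := by
  by_contra hcon
  push Not at hcon
  set w := a ⊔ b with hw
  set v := k ⊓ w with hv
  have hbv : b ≤ v := le_inf hba le_sup_right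
  have hsv : s ≤ v := le_inf ha.k2 (ha.s1.le.trans le_sup_left)
  have hnot : ¬ w ≤ v := fun hh => ha.k1 (le_sup_left.trans (hh.trans inf_le_left))
  have hva : v ⊔ a = w := le_antisymm (sup_le inf_le_right le_sup_left)
    (sup_le le_sup_right (hbv.trans le_sup_left))
  apply hnot
  apply hB.2
  intro x hx
  by_contra hxv
  have hxw : x ≤ w := hB.1 hx
  have hvx : v ⊔ x = w := by
    apply le_antisymm (sup_le inf_le_right hxw)
    apply sup_le _ (hbv.trans le_sup_left)
    by_contra hax
    have h1 := ha.k3 (v ⊔ x) (hsv.trans le_sup_left) hax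
    exact hxv (le_inf (le_sup_right.trans h1) hxw)
  have h2 := h.1 v a x (hva.trans hvx.symm)
  have h3 : a ⊓ x ≤ v := by
    refine le_trans (ha.s2 _ ?_) hsv
    exact lt_of_le_of_ne inf_le_left fun he => hcon x hx (inf_eq_left.1 he)
  rw [sup_eq_left.2 h3, hva] at h2
  exact hnot h2.ge

/-- orthogonal pairs are faces -/
lemma canon_of_orth (h : SemiDist L) {a b s k s' k' : L} (ha : Kap a s k) (hb : Kap b s' k')
    (hba : b ≤ k) (hab : a ≤ k') : CanonJoinRep {a, b} (a ⊔ b) := by
  refine ⟨isLUB_pair, fun A' hA' hlub => ?_, fun B hB c hc => ?_⟩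
  · by_cases haA : a ∈ A'
    · have hbA : b ∉ A' := by
        intro hbA
        apply hA'.2
        rintro x (rfl | hx)
        · exact haA
        · have : x = b := hx
          rw [this]; exact hbA
      have : a ⊔ b ≤ a := hlub.2 (by
        intro x hx
        rcases hA'.1 hx with rfl | hx'
        · exact le_rfl
        · have : x = b := hx'
          rw [this] at hx
          exact absurd hx hbA)
      exact hb.k1 ((le_sup_right.trans this).trans hab)
    · have : a ⊔ b ≤ b := hlub.2 (by
        intro x hx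
        rcases hA'.1 hx with rfl | hx'
        · exact absurd hx haA
        · have : x = b := hx'
          rw [this])
      exact ha.k1 ((le_sup_left.trans this).trans hba)
  · rcases hc with rfl | hc
    · exact refine_aux h ha hba hB
    · have : c = b := hc
      rw [this]
      rw [sup_comm] at hB
      exact refine_aux h hb hab hB

/-- every arc factors -/
lemma factor [Finite L] {j k' : L} (harc : ¬ j ≤ k') :
    ∃ z : L, SupIrred z ∧ z ≤ j ∧ ¬ z ≤ k' ∧ ∀ s k, Kap z s k → k' ≤ k := by
  obtain ⟨z, hz⟩ := Set.Finite.exists_minimal (Set.toFinite {x : L | x ≤ j ∧ ¬ x ≤ k'})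
    ⟨j, le_rfl, harc⟩
  have hlow : ∀ y, y < z → y ≤ k' := by
    intro y hy
    by_contra hcon
    have := hz.le_of_le (⟨hy.le.trans hz.prop.1, hcon⟩ : y ∈ {x : L | x ≤ j ∧ ¬ x ≤ k'}) hy.le
    exact absurd this hy.not_ge
  refine ⟨z, ⟨?_, ?_⟩, hz.prop.1, hz.prop.2, fun s k hk => ?_⟩
  · intro hmin
    have := hmin (show z ⊓ k' ≤ z from inf_le_left)
    exact hz.prop.2 (this.trans inf_le_right)
  · intro b c hbc
    by_contra hcon
    push Not at hcon
    have hb : b < z := lt_of_le_of_ne (by rw [← hbc]; exact le_sup_left) hcon.1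
    have hc : c < z := lt_of_le_of_ne (by rw [← hbc]; exact le_sup_right) hcon.2
    apply hz.prop.2
    rw [← hbc]
    exact sup_le (hlow b hb) (hlow c hc)
  · exact hk.k3 k' (hlow s hk.s1) hz.prop.2

/-- different join-irreducible elements have different `k` -/
lemma kap_inj (h : SemiDist L) {j j' s s' k : L} (hj : Kap j s k) (hj' : Kap j' s' k) : j = j' := by
  by_contra hne
  have e1 : j' ≤ k ⊔ j := by
    by_contra hcon
    exact hj.k1 (le_sup_right.trans (hj'.k3 _ (hj'.k2.trans le_sup_left) hcon))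
  have e2 : j ≤ k ⊔ j' := by
    by_contra hcon
    exact hj'.k1 (le_sup_right.trans (hj.k3 _ (hj.k2.trans le_sup_left) hcon))
  have e3 : k ⊔ j = k ⊔ j' := le_antisymm (sup_le le_sup_left e2) (sup_le le_sup_left e1)
  have e4 := h.1 k j j' e3
  have e5 : j ⊓ j' ≤ k := by
    by_cases hlt : j ⊓ j' < j
    · exact (hj.s2 _ hlt).trans hj.k2
    · have h5 : j ⊓ j' = j := by
        by_contra h6
        exact hlt (lt_of_le_of_ne inf_le_left h6)
      have h6 : j ≤ j' := inf_eq_left.1 h5
      have h7 : j < j' := lt_of_le_of_ne h6 hne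
      exact absurd ((hj'.s2 _ h7).trans hj'.k2) hj.k1
  rw [sup_eq_left.2 e5] at e4
  exact hj.k1 (by rw [e4]; exact le_sup_right)

/-- non-faces of size two -/
def NF (a b : JI L) : Prop := a ≠ b ∧ ({a, b} : Set (JI L)) ∉ cjc L

lemma mem_cjc_pair (a b : JI L) : ({a, b} : Set (JI L)) ∈ cjc L ↔
    ∃ w, CanonJoinRep {a.1, b.1} w := by
  unfold cjc
  simp only [Set.mem_ofPred_eq, Set.image_pair]

theorem three_col [Finite L] (h : SemiDist L)
    (htri : ∀ a b c : JI L, NF a b → NF b c → NF a c → False) :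
    ∃ col : JI L → Fin 3, ∀ a b, NF a b → col a ≠ col b := by
  classical
  choose s k hk using fun j : JI L => exists_kap h j.2
  have hnf : ∀ a b : JI L, a ≠ b → ¬ a.1 ≤ k b → NF a b := by
    intro a b hab harc
    refine ⟨hab, ?_⟩
    rw [mem_cjc_pair]
    rintro ⟨w, hw⟩
    exact not_canon (hk b) (fun he => hab (Subtype.ext he)) harc hw
  have hsymm : ∀ a b : JI L, NF a b → NF b a := by
    rintro a b ⟨h1, h2⟩
    refine ⟨h1.symm, ?_⟩
    rwa [Set.pair_comm]
  -- a factorisation in a triangle-free graph is trivial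
  have hfac : ∀ a b : JI L, a ≠ b → ¬ a.1 ≤ k b → k b ≤ k a ∨ b.1 ≤ a.1 := by
    intro a b hab harc
    obtain ⟨z, hz, hza, hzb, hzk⟩ := factor harc
    set z' : JI L := ⟨z, hz⟩ with hz'
    by_cases h1 : z' = a
    · left
      have := hzk (s z') (k z') (hk z')
      rwa [h1] at this
    · by_cases h2 : z' = b
      · right
        have h3 : b.1 = z := by rw [← h2]
        rw [h3]; exact hza
      · exfalso
        refine htri a z' b (hnf a z' (Ne.symm h1) ?_) (hnf z' b h2 hzb) (hnf a b hab harc)
        intro h4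
        exact (hk z').k1 (hza.trans h4)
  -- no two opposite arcs
  have hanti : ∀ a b : JI L, a ≠ b → ¬ a.1 ≤ k b → ¬ b.1 ≤ k a → False := by
    intro a b hab h1 h2
    have key : ∀ a b : JI L, a ≠ b → b.1 ≤ a.1 → k a ≤ k b → False := by
      intro a b hab h3 h4
      have h5 : b.1 < a.1 := lt_of_le_of_ne h3 fun he => hab (Subtype.ext he).symm
      exact (hk b).k1 ((((hk a).s2 _ h5).trans (hk a).k2).trans h4)
    rcases hfac a b hab h1 with h3 | h3 <;> rcases hfac b a hab.symm h2 with h4 | h4
    · have h5 : k a = k b := le_antisymm h4 h3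
      apply hab
      apply Subtype.ext
      have h6 := hk b
      rw [← h5] at h6
      exact kap_inj h (hk a) h6
    · exact key b a hab.symm h4 h3
    · exact key a b hab h3 h4
    · exact hab (Subtype.ext (le_antisymm h4 h3))
  have hor : ∀ a b : JI L, NF a b → ¬ a.1 ≤ k b ∨ ¬ b.1 ≤ k a := by
    rintro a b ⟨h1, h2⟩
    by_contra hcon
    push Not at hcon
    apply h2
    rw [mem_cjc_pair]
    exact ⟨_, canon_of_orth h (hk a) (hk b) hcon.2 hcon.1⟩
  -- sources and sinks
  let src : JI L → Prop := fun v => ∀ w, w ≠ v → w.1 ≤ k v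
  let snk : JI L → Prop := fun v => ∀ w, w ≠ v → v.1 ≤ k w
  have hss : ∀ a b : JI L, a ≠ b → ¬ a.1 ≤ k b → src a ∨ snk b := by
    intro a b hab harc
    rcases hfac a b hab harc with h3 | h3
    · left
      intro w hw
      by_contra hcon
      have h4 : ¬ w.1 ≤ k b := fun hh => hcon (hh.trans h3)
      by_cases hwb : w = b
      · rw [hwb] at hcon
        exact hanti a b hab harc hcon
      · exact htri w a b (hnf w a hw hcon) (hnf a b hab harc) (hnf w b hwb h4)
    · right
      intro u hu
      by_contra hcon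
      have h4 : ¬ a.1 ≤ k u := fun hh => hcon (h3.trans hh)
      by_cases hua : u = a
      · rw [hua] at hcon
        exact hanti a b hab harc hcon
      · exact htri a b u (hnf a b hab harc) (hnf b u (Ne.symm hu) hcon) (hnf a u (Ne.symm hua) h4)
  let col : JI L → Fin 3 := fun v => if src v then 0 else if snk v then 1 else 2
  have hcol : ∀ a b : JI L, a ≠ b → ¬ a.1 ≤ k b → col a ≠ col b := by
    intro a b hab harc
    have hb : ¬ src b := fun hh => harc (hh a hab)
    have ha : ¬ snk a := fun hh => harc (hh b hab.symm)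
    rcases hss a b hab harc with h1 | h1
    · simp only [col, if_pos h1, if_neg hb]
      split_ifs <;> decide
    · simp only [col, if_neg hb, if_pos h1, if_neg ha]
      split_ifs <;> decide
  refine ⟨col, fun a b hab => ?_⟩
  rcases hor a b hab with h1 | h1
  · exact hcol a b hab.1 h1
  · exact (hcol b a hab.1.symm h1).symm

end Pool.Agent.Q240.CJC
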