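import Mathlib

/-! The Groetzsch graph: triangle-free and not 3-colourable. -/

namespace Pool.Agent.Q240.CJC

/-- the arcs (the 20 edges, each directed from the smaller to the larger vertex) -/
def arcs : List (Fin 11 × Fin 11) :=
  [(0, 1), (1, 2), (2, 3), (3, 4), (0, 4),
   (1, 5), (4, 5), (0, 6), (2, 6), (1, 7), (3, 7), (2, 8), (4, 8), (0, 9), (3, 9),
   (5, 10), (6, 10), (7, 10), (8, 10), (9, 10)]

/-- the orientation of the Groetzsch graph -/
def gr (x y : Fin 11) : Prop := (x, y) ∈ arcs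

instance (x y : Fin 11) : Decidable (gr x y) := by unfold gr; infer_instance

lemma gr_irr : ∀ x, ¬ gr x x := by decide

lemma gr_anti : ∀ x y, gr x y → ¬ gr y x := by decide

lemma gr_tri : ∀ x y z, (gr x y ∨ gr y x) → (gr y z ∨ gr z y) → ¬ (gr x z ∨ gr z x) := by decide

lemma step {a a' b b' t : Fin 3} (h1 : a ≠ a') (h2 : a' ≠ b) (h3 : a ≠ b') :
    (if a = t then b else a) ≠ (if a' = t then b' else a') := by
  split_ifs with e1 e2 e2
  · exact absurd (e1.trans e2.symm) h1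
  · exact h2.symm
  · exact h3
  · exact h1

lemma two : ∀ t a b c : Fin 3, a ≠ t ∧ b ≠ t ∧ c ≠ t ∧ a ≠ b ∧ b ≠ c → a = c := by decide

lemma five (t a b c d e : Fin 3) (ha : a ≠ t) (hb : b ≠ t) (hc : c ≠ t) (hd : d ≠ t) (he : e ≠ t)
    (h1 : a ≠ b) (h2 : b ≠ c) (h3 : c ≠ d) (h4 : d ≠ e) (h5 : e ≠ a) : False := by
  have e1 : a = c := two t a b c ⟨ha, hb, hc, h1, h2⟩
  have e2 : c = e := two t c d e ⟨hc, hd, he, h3, h4⟩
  exact h5 (e1.trans e2).symm

theorem gr_not_col (c : Fin 11 → Fin 3) (h : ∀ x y, gr x y → c x ≠ c y) : False := by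
  have k : ∀ i j : Fin 11, (i, j) ∈ arcs → c i ≠ c j := fun i j hij => h i j hij
  have nt : ∀ a b t : Fin 3, b ≠ t → (if a = t then b else a) ≠ t := by
    intro a b t hb
    split_ifs with e
    · exact hb
    · exact e
  refine five (c 10) (if c 0 = c 10 then c 5 else c 0) (if c 1 = c 10 then c 6 else c 1)
    (if c 2 = c 10 then c 7 else c 2) (if c 3 = c 10 then c 8 else c 3)
    (if c 4 = c 10 then c 9 else c 4)
    (nt _ _ _ (k 5 10 (by decide))) (nt _ _ _ (k 6 10 (by decide)))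
    (nt _ _ _ (k 7 10 (by decide))) (nt _ _ _ (k 8 10 (by decide)))
    (nt _ _ _ (k 9 10 (by decide)))
    (step (k 0 1 (by decide)) (k 1 5 (by decide)) (k 0 6 (by decide)))
    (step (k 1 2 (by decide)) (k 2 6 (by decide)) (k 1 7 (by decide)))
    (step (k 2 3 (by decide)) (k 3 7 (by decide)) (k 2 8 (by decide)))
    (step (k 3 4 (by decide)) (k 4 8 (by decide)) (k 3 9 (by decide)))
    (step (k 0 4 (by decide)).symm (k 0 9 (by decide)) (k 4 5 (by decide)))

end Pool.Agent.Q240.CJC
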