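import Mathlib
import Pool.Agent.Q240.CJC.Defs

/-! For every oriented graph a semidistributive lattice whose canonical join complex contains the
complement of the graph as an induced subcomplex. -/

namespace Pool.Agent.Q240.CJC

variable {V : Type}

/-- sets of arcs and vertices closed under: a vertex forces the arcs leaving it, and all arcs
leaving a vertex together with an arc entering it force the vertex -/
@[ext] structure Cl (r : V → V → Prop) where
  A : Set (V × V)
  B : Set V
  hA : ∀ x y, (x, y) ∈ A → r x y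
  h1 : ∀ x ∈ B, ∀ y, r x y → (x, y) ∈ A
  h2 : ∀ x w, (w, x) ∈ A → (∀ y, r x y → (x, y) ∈ A) → x ∈ B

variable {r : V → V → Prop}

/-- vertices forced by a set of arcs -/
def forced (r : V → V → Prop) (A : Set (V × V)) : Set V :=
  {x | (∃ w, (w, x) ∈ A) ∧ ∀ y, r x y → (x, y) ∈ A}

instance : PartialOrder (Cl r) where
  le p q := p.A ⊆ q.A ∧ p.B ⊆ q.B
  le_refl p := ⟨subset_rfl, subset_rfl⟩
  le_trans p q s h1 h2 := ⟨h1.1.trans h2.1, h1.2.trans h2.2⟩
  le_antisymm p q h1 h2 := Cl.ext (h1.1.antisymm h2.1) (h1.2.antisymm h2.2)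

lemma le_def (p q : Cl r) : p ≤ q ↔ p.A ⊆ q.A ∧ p.B ⊆ q.B := Iff.rfl

instance : Lattice (Cl r) where
  sup p q :=
    { A := p.A ∪ q.A
      B := (p.B ∪ q.B) ∪ forced r (p.A ∪ q.A)
      hA := by
        rintro x y (h | h)
        · exact p.hA x y h
        · exact q.hA x y h
      h1 := by
        rintro x ((h | h) | h) y hy
        · exact Or.inl (p.h1 x h y hy)
        · exact Or.inr (q.h1 x h y hy)
        · exact h.2 y hy
      h2 := by
        intro x w hw h
        exact Or.inr ⟨⟨w, hw⟩, h⟩ }
  inf p q :=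
    { A := p.A ∩ q.A
      B := p.B ∩ q.B
      hA := fun x y h => p.hA x y h.1
      h1 := fun x h y hy => ⟨p.h1 x h.1 y hy, q.h1 x h.2 y hy⟩
      h2 := fun x w hw h => ⟨p.h2 x w hw.1 fun y hy => (h y hy).1,
        q.h2 x w hw.2 fun y hy => (h y hy).2⟩ }
  le_sup_left p q := ⟨fun _ h => Or.inl h, fun _ h => Or.inl (Or.inl h)⟩
  le_sup_right p q := ⟨fun _ h => Or.inr h, fun _ h => Or.inl (Or.inr h)⟩
  sup_le p q s h1 h2 := by
    refine ⟨Set.union_subset h1.1 h2.1, ?_⟩
    rintro x ((h | h) | h)
    · exact h1.2 h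
    · exact h2.2 h
    · obtain ⟨⟨w, hw⟩, h⟩ := h
      exact s.h2 x w (Set.union_subset h1.1 h2.1 hw)
        fun y hy => Set.union_subset h1.1 h2.1 (h y hy)
  inf_le_left p q := ⟨fun _ h => h.1, fun _ h => h.1⟩
  inf_le_right p q := ⟨fun _ h => h.2, fun _ h => h.2⟩
  le_inf p q s h1 h2 := ⟨fun _ h => ⟨h1.1 h, h2.1 h⟩, fun _ h => ⟨h1.2 h, h2.2 h⟩⟩

lemma sup_A (p q : Cl r) : (p ⊔ q).A = p.A ∪ q.A := rfl
lemma sup_B (p q : Cl r) : (p ⊔ q).B = (p.B ∪ q.B) ∪ forced r (p.A ∪ q.A) := rfl
lemma inf_A (p q : Cl r) : (p ⊓ q).A = p.A ∩ q.A := rfl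
lemma inf_B (p q : Cl r) : (p ⊓ q).B = p.B ∩ q.B := rfl

instance [Finite V] : Finite (Cl r) :=
  Finite.of_injective (fun p : Cl r => (p.A, p.B)) (by
    intro p q h
    simp only [Prod.mk.injEq] at h
    exact Cl.ext h.1 h.2)

theorem semiDist : SemiDist (Cl r) := by
  constructor
  · intro x y z h
    have hA : x.A ∪ y.A = x.A ∪ z.A := by
      have := congrArg Cl.A h
      simpa only [sup_A] using this
    have hB : (x.B ∪ y.B) ∪ forced r (x.A ∪ y.A) = (x.B ∪ z.B) ∪ forced r (x.A ∪ z.A) := by
      have := congrArg Cl.B h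
      simpa only [sup_B] using this
    have hA' : x.A ∪ (y.A ∩ z.A) = x.A ∪ y.A := by
      rw [Set.union_inter_distrib_left, ← hA, Set.inter_self]
    apply Cl.ext
    · simp only [sup_A, inf_A]; exact hA'
    · simp only [sup_B, inf_A, inf_B]
      rw [hA']
      ext v
      constructor
      · rintro ((h1 | h1) | h1)
        · exact Or.inl (Or.inl h1)
        · exact Or.inl (Or.inr h1.1)
        · exact Or.inr h1
      · intro h1
        by_cases hf : v ∈ forced r (x.A ∪ y.A)
        · exact Or.inr hf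
        · have h2 : v ∈ (x.B ∪ z.B) ∪ forced r (x.A ∪ z.A) := by rw [← hB]; exact h1
          rw [← hA] at h2
          rcases h1 with h1 | h1
          · rcases h2 with h2 | h2
            · rcases h1 with h1 | h1
              · exact Or.inl (Or.inl h1)
              · rcases h2 with h2 | h2
                · exact Or.inl (Or.inl h2)
                · exact Or.inl (Or.inr ⟨h1, h2⟩)
            · exact absurd h2 hf
          · exact absurd h1 hf
  · intro x y z h
    have hA : x.A ∩ y.A = x.A ∩ z.A := by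
      have := congrArg Cl.A h
      simpa only [inf_A] using this
    have hB : x.B ∩ y.B = x.B ∩ z.B := by
      have := congrArg Cl.B h
      simpa only [inf_B] using this
    have hA' : x.A ∩ (y.A ∪ z.A) = x.A ∩ y.A := by
      rw [Set.inter_union_distrib_left, ← hA, Set.union_self]
    apply Cl.ext
    · simp only [inf_A, sup_A]; exact hA'
    · simp only [inf_B, sup_B]
      ext v
      constructor
      · rintro ⟨hx, (h1 | h1) | h1⟩
        · exact ⟨hx, h1⟩
        · have : v ∈ x.B ∩ z.B := ⟨hx, h1⟩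
          rwa [← hB] at this
        · obtain ⟨⟨w, hw⟩, h1⟩ := h1
          have h2 : ∀ t, r v t → (v, t) ∈ x.A ∩ y.A := fun t ht => by
            rw [← hA']; exact ⟨x.h1 v hx t ht, h1 t ht⟩
          rcases hw with hw | hw
          · exact ⟨hx, y.h2 v w hw fun t ht => (h2 t ht).2⟩
          · have h3 : v ∈ z.B := z.h2 v w hw fun t ht => by
              have := h2 t ht
              rw [hA] at this
              exact this.2
            have : v ∈ x.B ∩ z.B := ⟨hx, h3⟩
            rwa [← hB] at this
      · rintro ⟨hx, h1⟩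
        exact ⟨hx, Or.inl (Or.inl h1)⟩

/-- arcs leaving `x` -/
def out (r : V → V → Prop) (x : V) : Set (V × V) := {e | e.1 = x ∧ r e.1 e.2}

/-- the closed set generated by the vertex `x` -/
def gen (r : V → V → Prop) (x : V) : Cl r where
  A := out r x
  B := {x} ∪ forced r (out r x)
  hA := fun _ _ h => h.2
  h1 := by
    rintro u (hu | hu) y hy
    · have hu' : u = x := hu
      exact ⟨hu', hy⟩
    · exact hu.2 y hy
  h2 := fun u w hw h => Or.inr ⟨⟨w, hw⟩, h⟩

/-- its lower cover -/
def low (r : V → V → Prop) (x : V) : Cl r where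
  A := out r x
  B := forced r (out r x)
  hA := fun _ _ h => h.2
  h1 := fun _ hu y hy => hu.2 y hy
  h2 := fun u w hw h => ⟨⟨w, hw⟩, h⟩

lemma not_forced (hirr : ∀ x, ¬ r x x) (x : V) : x ∉ forced r (out r x) := by
  rintro ⟨⟨w, hw⟩, _⟩
  have h1 : w = x := hw.1
  have h2 : r w x := hw.2
  rw [h1] at h2
  exact hirr x h2

lemma gen_le {p : Cl r} {x : V} (hx : x ∈ p.B) : gen r x ≤ p := by
  have hA : out r x ⊆ p.A := by
    rintro ⟨u, y⟩ ⟨h1, h2⟩
    have h1' : u = x := h1
    subst h1'
    exact p.h1 u hx y h2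
  refine ⟨hA, ?_⟩
  rintro u (hu | ⟨⟨w, hw⟩, h⟩)
  · have hu' : u = x := hu
    rw [hu']; exact hx
  · exact p.h2 u w (hA hw) fun y hy => hA (h y hy)

lemma mem_gen (x : V) : x ∈ (gen r x).B := Or.inl rfl

lemma supIrred_gen (hirr : ∀ x, ¬ r x x) (x : V) : SupIrred (gen r x) := by
  constructor
  · intro hmin
    let z : Cl r := ⟨∅, ∅, fun _ _ h => h.elim, fun _ h => h.elim, fun _ _ h => h.elim⟩
    have hz : z ≤ gen r x := ⟨Set.empty_subset _, Set.empty_subset _⟩
    have := (hmin hz).2 (mem_gen x)
    exact this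
  · intro b c hbc
    have hx : x ∈ (b ⊔ c).B := by rw [hbc]; exact mem_gen x
    have hA : b.A ∪ c.A = out r x := by
      have := congrArg Cl.A hbc
      exact this
    rw [sup_B] at hx
    rcases hx with (hx | hx) | hx
    · left
      exact le_antisymm (by rw [← hbc]; exact le_sup_left) (gen_le hx)
    · right
      exact le_antisymm (by rw [← hbc]; exact le_sup_right) (gen_le hx)
    · rw [hA] at hx
      exact absurd hx (not_forced hirr x)

lemma mem_gen_B {x y : V} (h : x ∈ (gen r y).B) : x = y ∨ r y x := by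
  rcases h with h | ⟨⟨w, hw⟩, _⟩
  · exact Or.inl h
  · right
    have h1 : w = y := hw.1
    have h2 : r w x := hw.2
    rwa [h1] at h2

lemma gen_inj (hanti : ∀ x y, r x y → ¬ r y x) {x y : V} (h : gen r x = gen r y) : x = y := by
  have h1 : x ∈ (gen r y).B := by rw [← h]; exact mem_gen x
  have h2 : y ∈ (gen r x).B := by rw [h]; exact mem_gen y
  rcases mem_gen_B h1 with h3 | h3
  · exact h3
  · rcases mem_gen_B h2 with h4 | h4
    · exact h4.symm
    · exact absurd h4 (hanti _ _ h3)

/-- adjacent vertices do not form a face -/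
lemma not_canon_of_arc (hirr : ∀ x, ¬ r x x) (hanti : ∀ x y, r x y → ¬ r y x) {x y : V}
    (hxy : r x y) (w : Cl r) : ¬ CanonJoinRep {gen r x, gen r y} w := by
  rintro ⟨h1, h2, h3⟩
  have hne : gen r x ≠ gen r y := fun he => by
    have := gen_inj hanti he
    rw [this] at hxy
    exact hirr y hxy
  have hw : w = gen r x ⊔ gen r y := h1.unique isLUB_pair
  have h4 : gen r y ≤ gen r x ⊔ low r y := by
    apply gen_le
    refine Or.inr ⟨⟨x, Or.inl ⟨rfl, hxy⟩⟩, fun z hz => Or.inr ⟨rfl, hz⟩⟩
  have h5 : low r y ≤ gen r y := ⟨subset_rfl, fun _ h => Or.inr h⟩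
  have h6 : IsLUB {gen r x, low r y} w := by
    have : gen r x ⊔ low r y = w := by
      rw [hw]
      exact le_antisymm (sup_le le_sup_left (h5.trans le_sup_right)) (sup_le le_sup_left h4)
    rw [← this]
    exact isLUB_pair
  obtain ⟨c, hc, hbc⟩ := h3 _ h6 (gen r y) (by simp)
  rcases hc with rfl | hc
  · apply h2 {gen r x} _ _
    · refine ⟨by simp, fun hsub => ?_⟩
      have := hsub (show gen r y ∈ ({gen r x, gen r y} : Set (Cl r)) by simp)
      exact hne (by simpa using this.symm)
    · rw [hw, sup_eq_left.2 hbc]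
      exact isLUB_singleton
  · have hc' : c = low r y := hc
    rw [hc'] at hbc
    exact not_forced hirr y (hbc.2 (mem_gen y))

lemma refine_gen (hirr : ∀ x, ¬ r x x) {x y : V} (hyx : ¬ r y x) {S : Set (Cl r)}
    (hS : IsLUB S (gen r x ⊔ gen r y)) : ∃ b ∈ S, gen r x ≤ b := by
  by_contra hcon
  push Not at hcon
  set w := gen r x ⊔ gen r y with hw
  have hwA : w.A = out r x ∪ out r y := rfl
  let q : Cl r :=
    { A := w.A
      B := w.B \ {x}
      hA := w.hA
      h1 := fun u hu => w.h1 u hu.1
      h2 := by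
        intro u v hv h
        refine ⟨w.h2 u v hv h, fun hux => ?_⟩
        have hux' : u = x := hux
        rw [hux', hwA] at hv
        rcases hv with hv | hv
        · have e1 : v = x := hv.1
          have e2 : r v x := hv.2
          rw [e1] at e2
          exact hirr x e2
        · have e1 : v = y := hv.1
          have e2 : r v x := hv.2
          rw [e1] at e2
          exact hyx e2 }
  have hq : w ≤ q := by
    apply hS.2
    intro p hp
    have hpw : p ≤ w := hS.1 hp
    refine ⟨hpw.1, fun u hu => ⟨hpw.2 hu, fun hux => ?_⟩⟩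
    have hux' : u = x := hux
    rw [hux'] at hu
    exact hcon p hp (gen_le hu)
  have : x ∈ w.B := (show gen r x ≤ w from le_sup_left).2 (mem_gen x)
  exact (hq.2 this).2 rfl

/-- non-adjacent vertices form a face -/
lemma canon_of_not_arc (hirr : ∀ x, ¬ r x x) {x y : V} (hne : x ≠ y) (hxy : ¬ r x y)
    (hyx : ¬ r y x) : CanonJoinRep {gen r x, gen r y} (gen r x ⊔ gen r y) := by
  have nle : ∀ x y : V, x ≠ y → ¬ r y x → ¬ gen r x ≤ gen r y := by
    intro x y hne hyx hle
    rcases mem_gen_B (hle.2 (mem_gen x)) with h | h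
    · exact hne h
    · exact hyx h
  refine ⟨isLUB_pair, fun A' hA' hlub => ?_, fun B hB c hc => ?_⟩
  · by_cases haA : gen r x ∈ A'
    · have hbA : gen r y ∉ A' := by
        intro hbA
        apply hA'.2
        rintro t (rfl | ht)
        · exact haA
        · have : t = gen r y := ht
          rw [this]; exact hbA
      have : gen r x ⊔ gen r y ≤ gen r x := hlub.2 (by
        intro t ht
        rcases hA'.1 ht with rfl | ht'
        · exact le_rfl
        · have : t = gen r y := ht'
          rw [this] at ht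
          exact absurd ht hbA)
      exact nle y x hne.symm hxy (le_sup_right.trans this)
    · have : gen r x ⊔ gen r y ≤ gen r y := hlub.2 (by
        intro t ht
        rcases hA'.1 ht with rfl | ht'
        · exact absurd ht haA
        · have : t = gen r y := ht'
          rw [this])
      exact nle x y hne hyx (le_sup_left.trans this)
  · rcases hc with rfl | hc
    · exact refine_gen hirr hyx hB
    · have : c = gen r y := hc
      rw [this]
      rw [sup_comm] at hB
      exact refine_gen hirr hxy hB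

end Pool.Agent.Q240.CJC
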